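import Mathlib

/-!
# The Witt algebra of derivations of the Laurent polynomials
-/

set_option autoImplicit false

open LaurentPolynomial

namespace Pool.Agent.X278.WI

/-- The Witt algebra: the derivations of the ring of Laurent polynomials. -/
abbrev Witt (k : Type) [Field k] : Type := Derivation k k[T;T⁻¹] k[T;T⁻¹]

variable (k : Type) [Field k]

/-- the linear map `T ^ a ↦ a T ^ (a + n)` -/
noncomputable def Hn (n : ℤ) : k[T;T⁻¹] →ₗ[k] k[T;T⁻¹] :=
  (AddMonoidAlgebra.basis ℤ k).constr k (fun a => (a : k) • T (a + n))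

lemma Hn_T (n a : ℤ) : Hn k n (T a) = (a : k) • T (a + n) := by
  have h : (T a : k[T;T⁻¹]) = AddMonoidAlgebra.basis ℤ k a := rfl
  rw [h]
  exact Module.Basis.constr_basis _ _ _ _

lemma T_ind {P : k[T;T⁻¹] → Prop} (hT : ∀ a : ℤ, P (T a)) (hadd : ∀ x y, P x → P y → P (x + y))
    (hs : ∀ (c : k) (x : k[T;T⁻¹]), P x → P (c • x)) (x : k[T;T⁻¹]) : P x := by
  induction x using LaurentPolynomial.induction_on' with
  | add p q hp hq => exact hadd p q hp hq
  | C_mul_T n a =>
    have := hs a _ (hT n)
    rw [LaurentPolynomial.smul_eq_C_mul] at this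
    exact this

/-- the derivation `T ^ (n + 1) d / dT` -/
noncomputable def dn (n : ℤ) : Witt k :=
  Derivation.mk' (Hn k n) (by
    intro a b
    induction a using T_ind with
    | hT a =>
      induction b using T_ind with
      | hT b =>
        rw [← T_add, Hn_T, Hn_T, Hn_T, smul_eq_mul, smul_eq_mul, mul_smul_comm, mul_smul_comm,
          ← T_add, ← T_add]
        rw [show a + (b + n) = a + b + n by ring, show b + (a + n) = a + b + n by ring,
          ← add_smul]
        congr 1
        push_cast
        ring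
      | hadd x y hx hy =>
        rw [mul_add, map_add, hx, hy, map_add, smul_add, add_smul]
        abel
      | hs c x hx =>
        rw [mul_smul_comm, map_smul, hx, map_smul, smul_add, smul_comm c, smul_assoc]
    | hadd x y hx hy =>
      rw [add_mul, map_add, hx, hy, map_add, smul_add, add_smul]
      abel
    | hs c x hx =>
      rw [smul_mul_assoc, map_smul, hx, map_smul, smul_add, smul_assoc, smul_comm b c])

lemma dn_T (n a : ℤ) : dn k n (T a) = (a : k) • T (a + n) := Hn_T k n a

lemma der_T (D : Witt k) (n : ℤ) : D (T n) = (n : k) • (T (n - 1) * D (T 1)) := by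
  induction n using Int.induction_on with
  | zero => simp
  | succ n ih =>
    rw [T_add, Derivation.leibniz, ih, smul_eq_mul, smul_eq_mul, mul_smul_comm, ← mul_assoc,
      ← T_add]
    rw [show (1 : ℤ) + ((n : ℤ) - 1) = n by ring, show (n : ℤ) + 1 - 1 = n by ring]
    push_cast
    rw [add_smul, one_smul]
    abel
  | pred n ih =>
    have h1 : (T (-(n : ℤ)) : k[T;T⁻¹]) = T (-(n : ℤ) - 1) * T 1 := by
      rw [← T_add]
      congr 1
      ring
    have h2 : D (T (-(n : ℤ))) = T (-(n : ℤ) - 1) * D (T 1) + T 1 * D (T (-(n : ℤ) - 1)) := by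
      rw [h1, Derivation.leibniz, smul_eq_mul, smul_eq_mul]
    rw [ih] at h2
    have h3 : T 1 * D (T (-(n : ℤ) - 1)) =
        (((-(n : ℤ) - 1 : ℤ)) : k) • (T (-(n : ℤ) - 1) * D (T 1)) := by
      have : T 1 * D (T (-(n : ℤ) - 1)) =
        ((-(n : ℤ) : ℤ) : k) • (T (-(n : ℤ) - 1) * D (T 1)) - T (-(n : ℤ) - 1) * D (T 1) := by
        rw [h2]; abel
      rw [this]
      push_cast
      rw [sub_smul, one_smul]
    have h4 : D (T (-(n : ℤ) - 1)) = T (-1) * (T 1 * D (T (-(n : ℤ) - 1))) := by
      rw [← mul_assoc, ← T_add]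
      simp
    rw [h4, h3, mul_smul_comm, ← mul_assoc, ← T_add]
    congr 3
    ring

/-- the value at the variable -/
noncomputable def evT : Witt k →ₗ[k] k[T;T⁻¹] where
  toFun D := D (T 1)
  map_add' _ _ := rfl
  map_smul' _ _ := rfl

lemma evT_dn (n : ℤ) : evT k (dn k n) = T (n + 1) := by
  change dn k n (T 1) = _
  rw [dn_T]
  simp [add_comm]

lemma evT_inj : Function.Injective (evT k) := by
  rw [injective_iff_map_eq_zero]
  intro D hD
  have hD' : D (T 1) = 0 := hD
  apply Derivation.ext
  intro x
  rw [Derivation.zero_apply]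
  induction x using T_ind with
  | hT a => rw [der_T, hD', mul_zero, smul_zero]
  | hadd x y hx hy => rw [map_add, hx, hy, add_zero]
  | hs c x hx => rw [Derivation.map_smul, hx, smul_zero]

lemma evT_surj : Function.Surjective (evT k) := by
  intro x
  have : x ∈ LinearMap.range (evT k) := by
    induction x using T_ind with
    | hT a => exact ⟨dn k (a - 1), by rw [evT_dn]; congr 1; ring⟩
    | hadd x y hx hy => exact Submodule.add_mem _ hx hy
    | hs c x hx => exact Submodule.smul_mem _ _ hx
  exact this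

/-- the basis of the Witt algebra -/
noncomputable def wb : Module.Basis ℤ k (Witt k) :=
  ((AddMonoidAlgebra.basis ℤ k).reindex (Equiv.addRight (1 : ℤ)).symm).map
    (LinearEquiv.ofBijective (evT k) ⟨evT_inj k, evT_surj k⟩).symm

lemma wb_apply (n : ℤ) : wb k n = dn k n := by
  unfold wb
  rw [Module.Basis.map_apply, LinearEquiv.symm_apply_eq]
  change _ = evT k (dn k n)
  rw [evT_dn, Module.Basis.reindex_apply]
  rfl

lemma wb_lie (m n : ℤ) : ⁅wb k m, wb k n⁆ = ((n - m : ℤ) : k) • wb k (m + n) := by
  rw [wb_apply, wb_apply, wb_apply]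
  apply evT_inj
  rw [map_smul, evT_dn]
  change ⁅dn k m, dn k n⁆ (T 1) = _
  rw [Derivation.commutator_apply, dn_T, dn_T, Derivation.map_smul, Derivation.map_smul, dn_T, dn_T]
  rw [show (1 : ℤ) + n + m = m + n + 1 by ring, show (1 : ℤ) + m + n = m + n + 1 by ring]
  rw [smul_smul, smul_smul, ← sub_smul]
  congr 1
  push_cast
  ring

end Pool.Agent.X278.WI
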