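import Mathlib

/-!
# The top degree part of elements of the enveloping algebra of the Witt algebra
-/

set_option autoImplicit false
set_option linter.unusedSectionVars false
set_option linter.unusedVariables false

namespace Pool.Agent.X278.WI

variable {k U : Type} [Field k] [CharZero k] [Ring U] [Algebra k U]

/-- products of basis elements -/
def PP (E : ℤ → U) (l : List ℤ) : U := (l.map E).prod

@[simp] lemma PP_nil (E : ℤ → U) : PP E [] = 1 := rfl

@[simp] lemma PP_cons (E : ℤ → U) (a : ℤ) (l : List ℤ) : PP E (a :: l) = E a * PP E l := by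
  simp [PP]

lemma PP_append (E : ℤ → U) (l l' : List ℤ) : PP E (l ++ l') = PP E l * PP E l' := by
  simp [PP]

/-- sorted lists -/
abbrev SL : Type := {l : List ℤ // l.Pairwise (· ≤ ·)}

variable (k) in
/-- the span of the products of less than `D` factors -/
def FU (E : ℤ → U) (D : ℕ) : Submodule k U :=
  Submodule.span k {x | ∃ l : List ℤ, l.length < D ∧ x = PP E l}

/-- the sorted list of a list -/
def so (l : List ℤ) : SL := ⟨(l : Multiset ℤ).sort (· ≤ ·), Multiset.pairwise_sort _ _⟩

lemma coe_so (l : List ℤ) : (((so l).1 : List ℤ) : Multiset ℤ) = (l : Multiset ℤ) :=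
  Multiset.sort_eq (l : Multiset ℤ) (· ≤ ·)

lemma perm_so (l : List ℤ) : l.Perm (so l).1 := by
  rw [← Multiset.coe_eq_coe, coe_so]

section

variable (E : ℤ → U)

lemma mem_FU {D : ℕ} {l : List ℤ} (h : l.length < D) : PP E l ∈ FU k E D :=
  Submodule.subset_span ⟨l, h, rfl⟩

lemma FU_mono {D D' : ℕ} (h : D ≤ D') : FU k E D ≤ FU k E D' := by
  apply Submodule.span_mono
  rintro x ⟨l, hl, rfl⟩
  exact ⟨l, by omega, rfl⟩

lemma mul_FU (a : ℤ) {D : ℕ} {x : U} (hx : x ∈ FU k E D) : E a * x ∈ FU k E (D + 1) := by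
  induction hx using Submodule.span_induction with
  | mem y hy =>
    obtain ⟨l, hl, rfl⟩ := hy
    rw [← PP_cons]
    exact mem_FU E (by simpa using hl)
  | zero => rw [mul_zero]; exact Submodule.zero_mem _
  | add y z _ _ hy hz => rw [mul_add]; exact Submodule.add_mem _ hy hz
  | smul c y _ hy => rw [mul_smul_comm]; exact Submodule.smul_mem _ _ hy

variable (hE : ∀ m n : ℤ, E m * E n = E n * E m + ((n : k) - (m : k)) • E (m + n))

include hE in
lemma perm_FU {l l' : List ℤ} (h : l.Perm l') : PP E l - PP E l' ∈ FU k E l.length := by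
  induction h with
  | nil => simp
  | cons a h ih =>
    have := mul_FU E a ih
    rw [mul_sub, ← PP_cons, ← PP_cons] at this
    exact this
  | swap a b l =>
    have h1 : PP E (b :: a :: l) - PP E (a :: b :: l) = ((a : k) - (b : k)) • PP E ((b + a) :: l) := by
      simp only [PP_cons]
      rw [← mul_assoc, hE b a, add_mul, mul_assoc, add_sub_cancel_left, smul_mul_assoc]
    rw [h1]
    apply Submodule.smul_mem
    apply mem_FU
    simp
  | trans h1 h2 ih1 ih2 =>
    rw [← h1.length_eq] at ih2
    have := Submodule.add_mem _ ih1 ih2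
    simpa using this

variable (β : Module.Basis SL k U) (hβ : ∀ l, β l = PP E l.1)

/-- the top degree part -/
noncomputable def sym (D : ℕ) : U →ₗ[k] (Multiset ℤ →₀ k) :=
  β.constr k (fun l => if l.1.length = D then Finsupp.single (l.1 : Multiset ℤ) 1 else 0)

lemma sym_β (D : ℕ) (l : SL) : sym β D (β l) =
    if l.1.length = D then Finsupp.single (l.1 : Multiset ℤ) 1 else 0 :=
  Module.Basis.constr_basis _ _ _ _

include hE hβ in
lemma FU_le (D : ℕ) : FU k E D ≤ Submodule.span k {x | ∃ l : SL, l.1.length < D ∧ x = β l} := by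
  induction D with
  | zero =>
    unfold FU
    rw [Submodule.span_le]
    rintro _ ⟨l, hl, rfl⟩
    omega
  | succ D ih =>
    unfold FU
    rw [Submodule.span_le]
    rintro _ ⟨l, hl, rfl⟩
    have h1 := perm_FU E hE (perm_so l)
    have h2 : PP E l - PP E (so l).1 ∈ Submodule.span k {x | ∃ l : SL, l.1.length < D ∧ x = β l} :=
      ih (FU_mono E (by omega) h1)
    have h3 : PP E l - PP E (so l).1 ∈
        Submodule.span k {x | ∃ l : SL, l.1.length < D + 1 ∧ x = β l} := by
      refine Submodule.span_mono ?_ h2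
      rintro _ ⟨l, hl, rfl⟩
      exact ⟨l, by omega, rfl⟩
    have h4 : PP E (so l).1 ∈ Submodule.span k {x | ∃ l : SL, l.1.length < D + 1 ∧ x = β l} := by
      apply Submodule.subset_span
      refine ⟨so l, ?_, (hβ _).symm⟩
      rw [← (perm_so l).length_eq]
      exact hl
    have := Submodule.add_mem _ h3 h4
    simpa using this

include hE hβ in
lemma sym_FU (D : ℕ) {x : U} (hx : x ∈ FU k E D) : sym β D x = 0 := by
  have h := FU_le E hE β hβ D hx
  clear hx
  induction h using Submodule.span_induction with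
  | mem y hy =>
    obtain ⟨l, hl, rfl⟩ := hy
    rw [sym_β, if_neg (by omega)]
  | zero => exact map_zero _
  | add y z _ _ hy hz => rw [map_add, hy, hz, add_zero]
  | smul c y _ hy => rw [map_smul, hy, smul_zero]

include hE hβ in
lemma sym_PP (l : List ℤ) : sym β l.length (PP E l) = Finsupp.single (l : Multiset ℤ) 1 := by
  have h1 := sym_FU E hE β hβ l.length (perm_FU E hE (perm_so l))
  rw [map_sub, sub_eq_zero] at h1
  rw [h1, ← hβ, sym_β, if_pos (perm_so l).length_eq.symm, coe_so]

include hE hβ in
lemma sym_mul (D : ℕ) (b : ℤ) {x : U} (hx : x ∈ FU k E (D + 1)) :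
    sym β (D + 1) (E b * x) = (sym β D x).mapDomain (fun s => b ::ₘ s) := by
  induction hx using Submodule.span_induction with
  | mem y hy =>
    obtain ⟨l, hl, rfl⟩ := hy
    rcases Nat.lt_or_ge l.length D with h | h
    · rw [sym_FU E hE β hβ D (mem_FU E h), sym_FU E hE β hβ (D + 1) (mul_FU E b (mem_FU E h))]
      simp
    · have hD : D = l.length := by omega
      subst hD
      rw [sym_PP E hE β hβ, ← PP_cons]
      have := sym_PP E hE β hβ (b :: l)
      rw [List.length_cons] at this
      rw [this, Finsupp.mapDomain_single]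
      rfl
  | zero => simp
  | add y z _ _ hy hz => rw [mul_add, map_add, hy, hz, map_add, Finsupp.mapDomain_add]
  | smul c y _ hy => rw [mul_smul_comm, map_smul, hy, map_smul, Finsupp.mapDomain_smul]

/-- the commutator with `E (-K)` -/
def AD (E : ℤ → U) (k : Type) [Field k] [Algebra k U] (K : ℤ) : List ℤ → U
  | [] => 0
  | b :: l => ((b : k) + (K : k)) • PP E ((b - K) :: l) + E b * AD E k K l

include hE in
lemma AD_eq (K : ℤ) (l : List ℤ) : E (-K) * PP E l - PP E l * E (-K) = AD E k K l := by
  induction l with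
  | nil => simp [AD]
  | cons b l ih =>
    rw [AD, ← ih, PP_cons, PP_cons, ← mul_assoc, hE (-K) b]
    rw [show (-K) + b = b - K by ring]
    push_cast
    rw [sub_neg_eq_add, add_mul, smul_mul_assoc, mul_assoc, mul_assoc, mul_sub]
    abel

lemma AD_mem (K : ℤ) (l : List ℤ) : AD E k K l ∈ FU k E (l.length + 1) := by
  induction l with
  | nil => exact Submodule.zero_mem _
  | cons b l ih =>
    rw [AD]
    apply Submodule.add_mem
    · apply Submodule.smul_mem
      apply mem_FU
      simp
    · exact mul_FU E b ih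

/-- the top degree part of the commutator -/
noncomputable def TT (k : Type) [Field k] (K : ℤ) : List ℤ → (Multiset ℤ →₀ k)
  | [] => 0
  | b :: l => Finsupp.single ((b - K) ::ₘ (l : Multiset ℤ)) ((b : k) + (K : k)) +
      (TT k K l).mapDomain (fun s => b ::ₘ s)

include hE hβ in
lemma sym_AD (K : ℤ) (l : List ℤ) : sym β l.length (AD E k K l) = TT k K l := by
  induction l with
  | nil => simp [AD, TT]
  | cons b l ih =>
    rw [AD, TT, List.length_cons, map_add, map_smul, sym_mul E hE β hβ _ _ (AD_mem E K l), ih]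
    have := sym_PP E hE β hβ ((b - K) :: l)
    rw [List.length_cons] at this
    rw [this]
    simp

lemma TT_apply (K a B : ℤ) (ha : a - K < B) (l : List ℤ) (hl : ∀ b ∈ l, B ≤ b) :
    ∀ (t : Multiset ℤ), (∀ b ∈ t, B ≤ b) → TT k K l ((a - K) ::ₘ t) =
      if (l : Multiset ℤ) = a ::ₘ t then ((a : k) + (K : k)) * (l.count a : ℕ) else 0 := by
  induction l with
  | nil =>
    intro t ht
    rw [TT, Finsupp.zero_apply, if_neg]
    exact fun h => Multiset.cons_ne_zero h.symm
  | cons b l ih =>
    intro t ht
    have hb : B ≤ b := hl b (by simp)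
    have hl' : ∀ b ∈ l, B ≤ b := fun c hc => hl c (by simp [hc])
    have hne : b ≠ a - K := by omega
    rw [TT, Finsupp.add_apply, Finsupp.single_apply]
    have hfirst : ((b - K) ::ₘ (l : Multiset ℤ) = (a - K) ::ₘ t) ↔ (b = a ∧ (l : Multiset ℤ) = t) := by
      constructor
      · intro h
        have h1 : a - K ∈ (b - K) ::ₘ (l : Multiset ℤ) := by rw [h]; simp
        rw [Multiset.mem_cons] at h1
        rcases h1 with h1 | h1
        · have hba : b = a := by omega
          subst hba
          exact ⟨rfl, (Multiset.cons_inj_right _).1 h⟩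
        · have := hl' _ (by simpa using h1)
          omega
      · rintro ⟨rfl, h⟩
        rw [h]
    have hinj : Function.Injective (fun s : Multiset ℤ => b ::ₘ s) :=
      fun s s' h => (Multiset.cons_inj_right b).1 h
    have hsecond : (TT k K l).mapDomain (fun s => b ::ₘ s) ((a - K) ::ₘ t) =
        if b ∈ t then (if (l : Multiset ℤ) = a ::ₘ (t.erase b) then
          ((a : k) + (K : k)) * (l.count a : ℕ) else 0) else 0 := by
      by_cases hbt : b ∈ t
      · rw [if_pos hbt]
        have h1 : (a - K) ::ₘ t = (fun s : Multiset ℤ => b ::ₘ s) ((a - K) ::ₘ (t.erase b)) := by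
          change _ = b ::ₘ ((a - K) ::ₘ (t.erase b))
          rw [Multiset.cons_swap, Multiset.cons_erase hbt]
        rw [h1, Finsupp.mapDomain_apply hinj]
        exact ih hl' _ (fun c hc => ht c (Multiset.mem_of_mem_erase hc))
      · rw [if_neg hbt]
        apply Finsupp.mapDomain_of_notMem_range
        rintro ⟨s, hs⟩
        have h1 : b ∈ (a - K) ::ₘ t := by rw [← hs]; simp
        rw [Multiset.mem_cons] at h1
        rcases h1 with h1 | h1
        · exact hne h1
        · exact hbt h1
    rw [hsecond]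
    by_cases hba : b = a
    · subst hba
      have e1 : (((b :: l : List ℤ) : Multiset ℤ) = b ::ₘ t) ↔ (l : Multiset ℤ) = t := by
        rw [← Multiset.cons_coe, Multiset.cons_inj_right]
      by_cases hlt : (l : Multiset ℤ) = t
      · rw [if_pos (hfirst.2 ⟨rfl, hlt⟩), if_pos (e1.2 hlt)]
        by_cases hbt : b ∈ t
        · rw [if_pos hbt, if_pos (by rw [Multiset.cons_erase hbt]; exact hlt)]
          rw [List.count_cons_self]
          push_cast
          ring
        · rw [if_neg hbt]
          have hbl : b ∉ l := by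
            rw [← Multiset.mem_coe, hlt]; exact hbt
          rw [List.count_cons_self, List.count_eq_zero_of_not_mem hbl]
          simp
      · rw [if_neg (fun h => hlt (hfirst.1 h).2), if_neg (fun h => hlt (e1.1 h))]
        by_cases hbt : b ∈ t
        · rw [if_pos hbt, if_neg (by rw [Multiset.cons_erase hbt]; exact hlt), add_zero]
        · rw [if_neg hbt, add_zero]
    · rw [if_neg (fun h => hba (hfirst.1 h).1), zero_add]
      rw [List.count_cons_of_ne hba]
      have e1 : (((b :: l : List ℤ) : Multiset ℤ) = a ::ₘ t) ↔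
          b ∈ t ∧ (l : Multiset ℤ) = a ::ₘ (t.erase b) := by
        rw [← Multiset.cons_coe]
        constructor
        · intro h
          have hbt : b ∈ t := by
            have : b ∈ a ::ₘ t := by rw [← h]; simp
            rw [Multiset.mem_cons] at this
            exact this.resolve_left hba
          refine ⟨hbt, ?_⟩
          rw [← Multiset.cons_erase hbt, Multiset.cons_swap] at h
          exact (Multiset.cons_inj_right b).1 h
        · rintro ⟨hbt, h⟩
          rw [h, Multiset.cons_swap, Multiset.cons_erase hbt]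
      by_cases h : b ∈ t ∧ (l : Multiset ℤ) = a ::ₘ (t.erase b)
      · rw [if_pos h.1, if_pos h.2, if_pos (e1.2 h)]
      · rw [if_neg (fun h' => h (e1.1 h'))]
        by_cases hbt : b ∈ t
        · rw [if_pos hbt, if_neg (fun h' => h ⟨hbt, h'⟩)]
        · rw [if_neg hbt]

include hE hβ in
/-- one step: the letter `a` is replaced by `a - K` -/
lemma step (D : ℕ) (B K a : ℤ) (ha : a - K < B) (t : Multiset ℤ) (ht : ∀ b ∈ t, B ≤ b) {x : U}
    (hx : x ∈ Submodule.span k {x | ∃ l : SL, l.1.length < D + 1 ∧ (∀ b ∈ l.1, B ≤ b) ∧ x = β l}) :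
    sym β D (E (-K) * x - x * E (-K)) ((a - K) ::ₘ t) =
      ((a : k) + (K : k)) * ((a ::ₘ t).count a : ℕ) * sym β D x (a ::ₘ t) := by
  induction hx using Submodule.span_induction with
  | mem y hy =>
    obtain ⟨l, hl, hb, rfl⟩ := hy
    rw [hβ, AD_eq E hE, ← hβ, sym_β]
    rcases Nat.lt_or_ge l.1.length D with h | h
    · rw [if_neg (by omega), sym_FU E hE β hβ D (FU_mono E (by omega) (AD_mem E K l.1))]
      simp
    · have hD : D = l.1.length := by omega
      rw [if_pos hD.symm]
      subst hD
      rw [sym_AD E hE β hβ, TT_apply K a B ha l.1 hb t ht, Finsupp.single_apply]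
      split_ifs with h1
      · rw [mul_one, ← h1, Multiset.coe_count]
      · rw [mul_zero]
  | zero => simp
  | add y z _ _ hy hz =>
    have : E (-K) * (y + z) - (y + z) * E (-K) =
      (E (-K) * y - y * E (-K)) + (E (-K) * z - z * E (-K)) := by
      rw [mul_add, add_mul]; abel
    rw [this, map_add, Finsupp.add_apply, hy, hz, map_add, Finsupp.add_apply]
    ring
  | smul c y _ hy =>
    have : E (-K) * (c • y) - (c • y) * E (-K) = c • (E (-K) * y - y * E (-K)) := by
      rw [mul_smul_comm, smul_mul_assoc, smul_sub]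
    rw [this, map_smul, Finsupp.smul_apply, hy, map_smul, Finsupp.smul_apply, smul_eq_mul,
      smul_eq_mul]
    ring

lemma exists_bound (D : ℕ) (t : Multiset ℤ) {x : U}
    (hx : x ∈ Submodule.span k {x | ∃ l : SL, l.1.length < D + 1 ∧ x = β l}) :
    ∃ B : ℤ, B ≤ 0 ∧ (∀ b ∈ t, B ≤ b) ∧
      x ∈ Submodule.span k {x | ∃ l : SL, l.1.length < D + 1 ∧ (∀ b ∈ l.1, B ≤ b) ∧ x = β l} := by
  have hlist : ∀ l : Multiset ℤ, ∃ B : ℤ, B ≤ 0 ∧ ∀ b ∈ l, B ≤ b := by
    intro l
    induction l using Multiset.induction_on with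
    | empty => exact ⟨0, le_rfl, by simp⟩
    | cons a l ih =>
      obtain ⟨B, hB, h⟩ := ih
      refine ⟨min a B, by omega, ?_⟩
      intro b hb
      rw [Multiset.mem_cons] at hb
      rcases hb with rfl | hb
      · exact min_le_left _ _
      · exact (min_le_right _ _).trans (h b hb)
  have hmono : ∀ B B' : ℤ, B ≤ B' →
      Submodule.span k {x | ∃ l : SL, l.1.length < D + 1 ∧ (∀ b ∈ l.1, B' ≤ b) ∧ x = β l} ≤
      Submodule.span k {x | ∃ l : SL, l.1.length < D + 1 ∧ (∀ b ∈ l.1, B ≤ b) ∧ x = β l} := by
    intro B B' h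
    apply Submodule.span_mono
    rintro _ ⟨l, hl, hb, rfl⟩
    exact ⟨l, hl, fun b hb' => h.trans (hb b hb'), rfl⟩
  obtain ⟨B0, hB0, ht⟩ := hlist t
  induction hx using Submodule.span_induction with
  | mem y hy =>
    obtain ⟨l, hl, rfl⟩ := hy
    obtain ⟨B1, hB1, hl1⟩ := hlist (l.1 : Multiset ℤ)
    refine ⟨min B0 B1, by omega, fun b hb => (min_le_left _ _).trans (ht b hb), ?_⟩
    apply Submodule.subset_span
    exact ⟨l, hl, fun b hb => (min_le_right _ _).trans (hl1 b (by simpa using hb)), rfl⟩
  | zero => exact ⟨B0, hB0, ht, Submodule.zero_mem _⟩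
  | add y z _ _ hy hz =>
    obtain ⟨B1, hB1, h1, h2⟩ := hy
    obtain ⟨B2, hB2, h3, h4⟩ := hz
    refine ⟨min B1 B2, by omega, fun b hb => (min_le_left _ _).trans (h1 b hb), ?_⟩
    exact Submodule.add_mem _ (hmono _ _ (min_le_left _ _) h2) (hmono _ _ (min_le_right _ _) h4)
  | smul c y _ hy =>
    obtain ⟨B1, hB1, h1, h2⟩ := hy
    exact ⟨B1, hB1, h1, Submodule.smul_mem _ _ h2⟩

include hE hβ in
/-- Every nonzero set of elements stable under commutators with the generators contains an element
with a top degree monomial without positive letters. -/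
theorem exists_neg (I : Submodule k U) (hI : ∀ (n : ℤ), ∀ x ∈ I, E n * x - x * E n ∈ I) :
    ∀ (r : ℕ) (D : ℕ) (t : Multiset ℤ) (x : U), x ∈ I → x ∈ FU k E (D + 1) →
      sym β D x t ≠ 0 → (t.filter (fun b => 0 < b)).card = r →
      ∃ (t' : Multiset ℤ) (x' : U), x' ∈ I ∧ x' ∈ FU k E (D + 1) ∧ sym β D x' t' ≠ 0 ∧
        ∀ b ∈ t', b ≤ 0 := by
  intro r
  induction r with
  | zero =>
    intro D t x hx hF hs hr
    refine ⟨t, x, hx, hF, hs, fun b hb => ?_⟩
    by_contra h
    have : b ∈ t.filter (fun b => 0 < b) := by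
      rw [Multiset.mem_filter]; exact ⟨hb, by omega⟩
    rw [Multiset.card_eq_zero.1 hr] at this
    simp at this
  | succ r ih =>
    intro D t x hx hF hs hr
    obtain ⟨a, ha⟩ : ∃ a, a ∈ t.filter (fun b => 0 < b) := by
      apply Multiset.exists_mem_of_ne_zero
      intro h
      rw [h] at hr
      simp at hr
    rw [Multiset.mem_filter] at ha
    obtain ⟨hat, ha0⟩ := ha
    obtain ⟨t', rfl⟩ := Multiset.exists_cons_of_mem hat
    obtain ⟨B, hB, hBt, hxB⟩ := exists_bound β D (a ::ₘ t') (FU_le E hE β hβ _ hF)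
    have hst := step E hE β hβ D B (a - B + 1) a (by omega) t'
      (fun b hb => hBt b (Multiset.mem_cons_of_mem hb)) hxB
    have hne : sym β D (E (-(a - B + 1)) * x - x * E (-(a - B + 1))) ((a - (a - B + 1)) ::ₘ t') ≠ 0 := by
      rw [hst]
      refine mul_ne_zero (mul_ne_zero ?_ ?_) hs
      · have : (a : k) + ((a - B + 1 : ℤ) : k) = ((a + (a - B + 1) : ℤ) : k) := by push_cast; ring
        rw [this]
        exact_mod_cast (by omega : a + (a - B + 1) ≠ 0)
      · rw [Multiset.count_cons_self]
        exact_mod_cast (by omega : t'.count a + 1 ≠ 0)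
    refine ih D _ _ (hI _ x hx) ?_ hne ?_
    · clear hst hne hs hxB hx
      induction hF using Submodule.span_induction with
      | mem y hy =>
        obtain ⟨l, hl, rfl⟩ := hy
        rw [AD_eq E hE]
        exact FU_mono E (by omega) (AD_mem E _ l)
      | zero => simp
      | add y z _ _ hy hz =>
        have : E (-(a - B + 1)) * (y + z) - (y + z) * E (-(a - B + 1)) =
          (E (-(a - B + 1)) * y - y * E (-(a - B + 1))) +
          (E (-(a - B + 1)) * z - z * E (-(a - B + 1))) := by
          rw [mul_add, add_mul]; abel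
        rw [this]
        exact Submodule.add_mem _ hy hz
      | smul c y _ hy =>
        have : E (-(a - B + 1)) * (c • y) - (c • y) * E (-(a - B + 1)) =
          c • (E (-(a - B + 1)) * y - y * E (-(a - B + 1))) := by
          rw [mul_smul_comm, smul_mul_assoc, smul_sub]
        rw [this]
        exact Submodule.smul_mem _ _ hy
    · rw [Multiset.filter_cons_of_pos _ ha0, Multiset.card_cons] at hr
      rw [Multiset.filter_cons_of_neg _ (by omega)]
      exact Nat.succ.inj hr

end

end Pool.Agent.X278.WI
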