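import Pool.Agent.X278.WI.Indep
import Pool.Agent.X278.WI.Top
import Pool.Agent.Y351.LQ.PBWB

/-!
# The left ideal generated by a character of the positive part is proper
-/

set_option autoImplicit false
set_option linter.unusedSectionVars false
set_option linter.unusedVariables false

namespace Pool.Agent.X278.WI

variable {k W : Type} [Field k] [CharZero k] [LieRing W] [LieAlgebra k W]

/-- the generators of the enveloping algebra -/
noncomputable def EE (e : Module.Basis ℤ k W) (n : ℤ) : UniversalEnvelopingAlgebra k W :=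
  UniversalEnvelopingAlgebra.ι k (e n)

lemma iota_lie {L : Type} [LieRing L] [LieAlgebra k L] (x y : L) :
    (UniversalEnvelopingAlgebra.ι k ⁅x, y⁆ : UniversalEnvelopingAlgebra k L) =
      UniversalEnvelopingAlgebra.ι k x * UniversalEnvelopingAlgebra.ι k y -
        UniversalEnvelopingAlgebra.ι k y * UniversalEnvelopingAlgebra.ι k x := by
  let _ : LieRing (UniversalEnvelopingAlgebra k L) := LieRing.ofAssociativeRing
  rw [LieHom.map_lie, LieRing.of_associative_ring_bracket]

section

variable (e : Module.Basis ℤ k W)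
  (he : ∀ m n : ℤ, ⁅e m, e n⁆ = ((n - m : ℤ) : k) • e (m + n))

include he in
lemma EE_comm (m n : ℤ) :
    EE e m * EE e n = EE e n * EE e m + ((n : k) - (m : k)) • EE e (m + n) := by
  have h := iota_lie (k := k) (e m) (e n)
  rw [he, map_smul] at h
  unfold EE
  push_cast at h
  rw [h]
  abel

/-- the positive letters -/
abbrev Pz : Type := {j : ℤ // 1 ≤ j}

/-- the positive part -/
def NP : LieSubalgebra k W where
  __ := Submodule.span k (Set.range (fun j : Pz => e j.1))
  lie_mem' := by
    intro x y hx hy
    change x ∈ Submodule.span k (Set.range (fun j : Pz => e j.1)) at hx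
    change y ∈ Submodule.span k (Set.range (fun j : Pz => e j.1)) at hy
    change ⁅x, y⁆ ∈ Submodule.span k (Set.range (fun j : Pz => e j.1))
    induction hx using Submodule.span_induction with
    | mem x hx =>
      obtain ⟨i, rfl⟩ := hx
      induction hy using Submodule.span_induction with
      | mem y hy =>
        obtain ⟨j, rfl⟩ := hy
        rw [he]
        apply Submodule.smul_mem
        apply Submodule.subset_span
        have h1 := i.2
        have h2 := j.2
        exact ⟨⟨i.1 + j.1, by omega⟩, rfl⟩
      | zero => rw [lie_zero]; exact Submodule.zero_mem _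
      | add y z _ _ hy hz => rw [lie_add]; exact Submodule.add_mem _ hy hz
      | smul c y _ hy => rw [lie_smul]; exact Submodule.smul_mem _ _ hy
    | zero => rw [zero_lie]; exact Submodule.zero_mem _
    | add x z _ _ hx hz => rw [add_lie]; exact Submodule.add_mem _ hx hz
    | smul c x _ hx => rw [smul_lie]; exact Submodule.smul_mem _ _ hx

/-- the basis elements of the positive part -/
noncomputable def vp (j : Pz) : NP e he := ⟨e j.1, Submodule.subset_span ⟨j, rfl⟩⟩

/-- the basis of the positive part -/
noncomputable def bP : Module.Basis Pz k (NP e he) :=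
  Module.Basis.mk (v := vp e he)
    (by
      apply LinearIndependent.of_comp (NP e he).toSubmodule.subtype
      exact e.linearIndependent.comp (fun j : Pz => j.1) Subtype.val_injective)
    (by
      rintro ⟨x, hx⟩ -
      change x ∈ Submodule.span k (Set.range (fun j : Pz => e j.1)) at hx
      induction hx using Submodule.span_induction with
      | mem x hx =>
        obtain ⟨j, rfl⟩ := hx
        exact Submodule.subset_span ⟨j, rfl⟩
      | zero => exact Submodule.zero_mem _
      | add x y hx hy h1 h2 => exact Submodule.add_mem _ h1 h2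
      | smul c x hx h1 => exact Submodule.smul_mem _ c h1)

lemma bP_apply (j : Pz) : bP e he j = vp e he j := by
  unfold bP
  rw [Module.Basis.mk_apply]

/-- the values of the character -/
def ps (k : Type) [Field k] (j : ℤ) : k := if j = 2 then 1 else 0

/-- the character of the positive part -/
noncomputable def ch : NP e he →ₗ[k] k := (bP e he).constr k (fun j => ps k j.1)

lemma ch_vp (j : Pz) : ch e he (vp e he j) = ps k j.1 := by
  rw [← bP_apply]
  exact Module.Basis.constr_basis _ _ _ _

lemma vp_lie (i j : Pz) : ⁅vp e he i, vp e he j⁆ =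
    ((j.1 - i.1 : ℤ) : k) • vp e he ⟨i.1 + j.1, by have := i.2; have := j.2; omega⟩ := by
  apply Subtype.ext
  exact he i.1 j.1

lemma ch_lie (x y : NP e he) : ch e he ⁅x, y⁆ = 0 := by
  have hx : x ∈ Submodule.span k (Set.range (bP e he)) := by
    rw [(bP e he).span_eq]; trivial
  have hy : y ∈ Submodule.span k (Set.range (bP e he)) := by
    rw [(bP e he).span_eq]; trivial
  induction hx using Submodule.span_induction with
  | mem x hx =>
    obtain ⟨i, rfl⟩ := hx
    induction hy using Submodule.span_induction with
    | mem y hy =>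
      obtain ⟨j, rfl⟩ := hy
      rw [bP_apply, bP_apply, vp_lie, map_smul, ch_vp]
      unfold ps
      split_ifs with h
      · have h1 := i.2
        have h2 := j.2
        have h3 : j.1 - i.1 = 0 := by simp only at h; omega
        rw [h3]
        simp
      · simp
    | zero => rw [lie_zero, map_zero]
    | add y z _ _ hy hz => rw [lie_add, map_add, hy, hz, add_zero]
    | smul c y _ hy => rw [lie_smul, map_smul, hy, smul_zero]
  | zero => rw [zero_lie, map_zero]
  | add x z _ _ hx hz => rw [add_lie, map_add, hx, hz, add_zero]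
  | smul c x _ hx => rw [smul_lie, map_smul, hx, smul_zero]

/-- the character of the enveloping algebra of the positive part -/
lemma exists_Psi : ∃ Ψ : UniversalEnvelopingAlgebra k (NP e he) →ₐ[k] k,
    ∀ x, Ψ (UniversalEnvelopingAlgebra.ι k x) = ch e he x := by
  let _ : LieRing k := LieRing.ofAssociativeRing
  let _ : LieAlgebra k k := LieAlgebra.ofAssociativeAlgebra
  let c : NP e he →ₗ⁅k⁆ k :=
    { ch e he with
      map_lie' := by
        intro x y
        change ch e he ⁅x, y⁆ = _
        rw [ch_lie, LieRing.of_associative_ring_bracket, mul_comm, sub_self] }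
  exact ⟨UniversalEnvelopingAlgebra.lift k c, fun x =>
    UniversalEnvelopingAlgebra.lift_ι_apply k c x⟩

/-- the map of enveloping algebras -/
lemma exists_inc : ∃ inc : UniversalEnvelopingAlgebra k (NP e he) →ₐ[k]
      UniversalEnvelopingAlgebra k W,
    ∀ x : NP e he, inc (UniversalEnvelopingAlgebra.ι k x) =
      UniversalEnvelopingAlgebra.ι k (x : W) := by
  let _ : LieRing (UniversalEnvelopingAlgebra k W) := LieRing.ofAssociativeRing
  let _ : LieAlgebra k (UniversalEnvelopingAlgebra k W) := LieAlgebra.ofAssociativeAlgebra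
  let c0 : NP e he →ₗ[k] UniversalEnvelopingAlgebra k W :=
    { toFun := fun x => UniversalEnvelopingAlgebra.ι k (x : W)
      map_add' := by
        intro x y
        exact map_add (UniversalEnvelopingAlgebra.ι k) (x : W) (y : W)
      map_smul' := by
        intro r x
        exact map_smul (UniversalEnvelopingAlgebra.ι k) r (x : W) }
  let c : NP e he →ₗ⁅k⁆ UniversalEnvelopingAlgebra k W :=
    { c0 with
      map_lie' := by
        intro x y
        rw [LieRing.of_associative_ring_bracket]
        exact iota_lie (x : W) (y : W) }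
  exact ⟨UniversalEnvelopingAlgebra.lift k c, fun x =>
    UniversalEnvelopingAlgebra.lift_ι_apply k c x⟩

/-- decomposition of sorted lists -/
lemma split_list (l : List ℤ) (hl : l.Pairwise (· ≤ ·)) :
    ∃ (l1 : List ℤ) (l2 : List Pz), l = l1 ++ l2.map Subtype.val ∧ (∀ a ∈ l1, a ≤ 0) ∧
      l1.Pairwise (· ≤ ·) ∧ l2.Pairwise (· ≤ ·) := by
  induction l with
  | nil => exact ⟨[], [], by simp⟩
  | cons a l ih =>
    rw [List.pairwise_cons] at hl
    obtain ⟨l1, l2, e1, h1, h2, h3⟩ := ih hl.2
    by_cases ha : a ≤ 0
    · refine ⟨a :: l1, l2, by rw [e1]; rfl, ?_, ?_, h3⟩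
      · intro b hb
        rcases List.mem_cons.1 hb with rfl | hb
        · exact ha
        · exact h1 b hb
      · rw [List.pairwise_cons]
        exact ⟨fun b hb => hl.1 b (by rw [e1]; simp [hb]), h2⟩
    · have hl1 : l1 = [] := by
        cases l1 with
        | nil => rfl
        | cons c l1 =>
          exfalso
          have h4 := h1 c (by simp)
          have h5 := hl.1 c (by rw [e1]; simp)
          omega
      subst hl1
      refine ⟨[], ⟨a, by omega⟩ :: l2, by rw [e1]; rfl, by simp, List.Pairwise.nil, ?_⟩
      rw [List.pairwise_cons]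
      refine ⟨fun b hb => ?_, h3⟩
      have : a ≤ b.1 := hl.1 b.1 (by rw [e1]; simpa using ⟨b.2, hb⟩)
      exact this

lemma sorted_append (l1 : List ℤ) (l2 : List Pz) (h1 : ∀ a ∈ l1, a ≤ 0)
    (h2 : l1.Pairwise (· ≤ ·)) (h3 : l2.Pairwise (· ≤ ·)) :
    (l1 ++ l2.map Subtype.val).Pairwise (· ≤ ·) := by
  rw [List.pairwise_append]
  refine ⟨h2, ?_, ?_⟩
  · rw [List.pairwise_map]
    exact h3
  · intro a ha b hb
    rw [List.mem_map] at hb
    obtain ⟨c, _, rfl⟩ := hb
    have h4 := h1 a ha
    have h5 := c.2
    omega

include he in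
/-- The left ideal generated by the elements `E j - ψ j` is proper. -/
theorem exists_ideal : ∃ J : Ideal (UniversalEnvelopingAlgebra k W), J ≠ ⊤ ∧
    ∀ j : ℤ, 1 ≤ j → EE e j - algebraMap k _ (ps k j) ∈ J := by
  classical
  obtain ⟨β, hβ⟩ := Pool.Agent.Y351.LQ.t_PBWB k W ℤ e
  obtain ⟨γ, hγ⟩ := Pool.Agent.Y351.LQ.t_PBWB k (NP e he) Pz (bP e he)
  obtain ⟨Ψ, hΨ⟩ := exists_Psi e he
  obtain ⟨inc, hinc⟩ := exists_inc e he
  have hβ' : ∀ l, β l = PP (EE e) l.1 := hβ
  have hΨγ : ∀ l, Ψ (γ l) = (l.1.map (fun j => ps k j.1)).prod := by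
    intro l
    rw [hγ, map_list_prod, List.map_map]
    congr 1
    apply List.map_congr_left
    intro j _
    change Ψ (UniversalEnvelopingAlgebra.ι k (bP e he j)) = _
    rw [hΨ, bP_apply, ch_vp]
  have hincγ : ∀ l, inc (γ l) = PP (EE e) (l.1.map Subtype.val) := by
    intro l
    rw [hγ, map_list_prod, List.map_map, PP, List.map_map]
    congr 1
    apply List.map_congr_left
    intro j _
    change inc (UniversalEnvelopingAlgebra.ι k (bP e he j)) = EE e j.1
    rw [hinc, bP_apply]
    rfl
  let θ : UniversalEnvelopingAlgebra k W →ₗ[k] k :=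
    β.constr k (fun l => if ∀ a ∈ l.1, 1 ≤ a then (l.1.map (ps k)).prod else 0)
  have hθ : ∀ l, θ (β l) = if ∀ a ∈ l.1, 1 ≤ a then (l.1.map (ps k)).prod else 0 :=
    fun l => Module.Basis.constr_basis _ _ _ _
  -- claim A
  have hA : ∀ (l1 : List ℤ), (∀ a ∈ l1, a ≤ 0) → l1.Pairwise (· ≤ ·) →
      ∀ x, θ (PP (EE e) l1 * inc x) = if l1 = [] then Ψ x else 0 := by
    intro l1 h1 h2
    have : θ ∘ₗ (LinearMap.mulLeft k (PP (EE e) l1)) ∘ₗ inc.toLinearMap =
        if l1 = [] then Ψ.toLinearMap else 0 := by
      apply γ.ext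
      intro l
      change θ (PP (EE e) l1 * inc (γ l)) = _
      rw [hincγ, ← PP_append]
      have h3 := hθ ⟨l1 ++ l.1.map Subtype.val, sorted_append l1 l.1 h1 h2 l.2⟩
      rw [hβ'] at h3
      rw [h3]
      by_cases h4 : l1 = []
      · subst h4
        rw [if_pos rfl, if_pos]
        · change ((l.1.map Subtype.val).map (ps k)).prod = Ψ (γ l)
          rw [hΨγ, List.map_map]
          rfl
        · intro a ha
          simp only [List.nil_append, List.mem_map] at ha
          obtain ⟨c, _, rfl⟩ := ha
          exact c.2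
      · rw [if_neg h4, if_neg]
        · rfl
        · intro h5
          obtain ⟨a, ha⟩ := List.exists_mem_of_ne_nil l1 h4
          have h6 := h5 a (by simp [ha])
          have h7 := h1 a ha
          omega
    intro x
    have h3 := LinearMap.congr_fun this x
    change θ (PP (EE e) l1 * inc x) = _ at h3
    rw [h3]
    split_ifs <;> rfl
  -- claim C
  have hC : ∀ v x, θ (v * inc x) = Ψ x * θ v := by
    intro v x
    have : θ ∘ₗ (LinearMap.mulRight k (inc x)) = Ψ x • θ := by
      apply β.ext
      intro l
      change θ (β l * inc x) = Ψ x * θ (β l)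
      obtain ⟨l1, l2, e1, h1, h2, h3⟩ := split_list l.1 l.2
      have e2 : β l = PP (EE e) l1 * inc (γ ⟨l2, h3⟩) := by
        rw [hβ', e1, PP_append, hincγ]
      rw [e2, mul_assoc, ← map_mul, hA l1 h1 h2, hA l1 h1 h2]
      split_ifs with h4
      · rw [map_mul, mul_comm]
      · rw [mul_zero]
    exact LinearMap.congr_fun this v
  refine ⟨{ carrier := {u | ∀ v, θ (v * u) = 0}
            add_mem' := ?_
            zero_mem' := ?_
            smul_mem' := ?_ }, ?_, ?_⟩
  · intro a b ha hb v
    rw [mul_add, map_add, ha v, hb v, add_zero]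
  · intro v
    rw [mul_zero, map_zero]
  · intro c u hu v
    rw [smul_eq_mul, ← mul_assoc]
    exact hu (v * c)
  · intro htop
    rw [Ideal.eq_top_iff_one] at htop
    have h1 := htop 1
    rw [one_mul] at h1
    have h2 := hθ ⟨[], List.Pairwise.nil⟩
    rw [hβ'] at h2
    simp only [PP_nil] at h2
    rw [h1] at h2
    simp at h2
  · intro j hj v
    have e1 : EE e j - algebraMap k _ (ps k j) =
        inc (UniversalEnvelopingAlgebra.ι k (vp e he ⟨j, hj⟩) - algebraMap k _ (ps k j)) := by
      rw [map_sub, hinc, AlgHom.commutes]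
      rfl
    rw [e1, hC, map_sub, hΨ, ch_vp, AlgHom.commutes]
    simp

end

end Pool.Agent.X278.WI
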