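import Pool.Agent.X278.WI.Exist

/-!
# The enveloping algebra of the Witt algebra has a faithful simple module
-/

set_option autoImplicit false
set_option linter.unusedSectionVars false
set_option linter.unusedVariables false

namespace Pool.Agent.X278.WI

variable {k W : Type} [Field k] [CharZero k] [LieRing W] [LieAlgebra k W]

/-- the absolute values of the letters -/
def ng (l : List ℤ) : List ℕ := l.map (fun a => (-a).toNat)

lemma srt_coe (l : List ℕ) (hl : l.Pairwise (· ≥ ·)) : srt (l : Multiset ℕ) = l := by
  unfold srt
  refine List.Perm.eq_of_pairwise (le := (· ≥ ·)) (fun a b _ _ h1 h2 => le_antisymm h2 h1)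
    (Multiset.pairwise_sort _ _) hl ?_
  rw [← Multiset.coe_eq_coe, Multiset.sort_eq]

lemma ng_sorted (l : List ℤ) (h1 : ∀ a ∈ l, a ≤ 0) (hl : l.Pairwise (· ≤ ·)) :
    (ng l).Pairwise (· ≥ ·) := by
  unfold ng
  rw [List.pairwise_map]
  refine hl.imp_of_mem ?_
  intro a b ha hb hab
  have h2 := h1 a ha
  have h3 := h1 b hb
  change (-b).toNat ≤ (-a).toNat
  omega

lemma ng_inj (t t' : Multiset ℤ) (h : ∀ a ∈ t, a ≤ 0) (h' : ∀ a ∈ t', a ≤ 0)
    (e : t.map (fun a => (-a).toNat) = t'.map (fun a => (-a).toNat)) : t = t' := by
  have key : ∀ t : Multiset ℤ, (∀ a ∈ t, a ≤ 0) →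
      (t.map (fun a => (-a).toNat)).map (fun n : ℕ => -(n : ℤ)) = t := by
    intro t h
    rw [Multiset.map_map]
    conv_rhs => rw [← Multiset.map_id t]
    apply Multiset.map_congr rfl
    intro a ha
    have := h a ha
    simp only [Function.comp, id]
    omega
  rw [← key t h, e, key t' h']

section

variable {U M : Type} [Ring U] [Algebra k U] [AddCommGroup M] [Module k M] [Module U M]
  [IsScalarTower k U M] (E : ℤ → U)

/-- the operators on the module -/
def ops (n : ℤ) : Module.End k M where
  toFun x := E n • x
  map_add' x y := smul_add _ x y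
  map_smul' c x := by
    change E n • (c • x) = c • (E n • x)
    rw [← algebraMap_smul U c x, ← mul_smul, ← Algebra.commutes, mul_smul, algebraMap_smul]

lemma ops_apply (n : ℤ) (x : M) : ops (k := k) E n x = E n • x := rfl

variable (w : M)

lemma PP_neg (l : List ℤ) (h : ∀ a ∈ l, a ≤ 0) :
    PP E l • w = f (ops (k := k) E) w (ng l) := by
  induction l with
  | nil => simp [f, ng]
  | cons a l ih =>
    have ha := h a (by simp)
    rw [PP_cons, mul_smul, ih (fun b hb => h b (by simp [hb]))]
    change _ = ops (k := k) E (-(((-a).toNat : ℕ) : ℤ)) (f (ops (k := k) E) w (ng l))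
    rw [ops_apply]
    congr 2
    omega

lemma PP_pos (hw : ∀ j : ℤ, 1 ≤ j → E j • w = ps k j • w) (l : List Pz) :
    PP E (l.map Subtype.val) • w = (l.map (fun j => ps k j.1)).prod • w := by
  induction l with
  | nil => simp
  | cons a l ih =>
    rw [List.map_cons, PP_cons, mul_smul, ih, List.map_cons, List.prod_cons]
    change ops (k := k) E a.1 (_ • w) = _
    rw [map_smul, ops_apply, hw _ a.2, ← mul_smul, mul_comm]

end

section

variable (e : Module.Basis ℤ k W)
  (he : ∀ m n : ℤ, ⁅e m, e n⁆ = ((n - m : ℤ) : k) • e (m + n))

include he in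
/-- the main theorem: there is a simple module with zero annihilator -/
theorem exists_faithful : ∃ (M : Type) (_ : AddCommGroup M)
    (_ : Module (UniversalEnvelopingAlgebra k W) M),
    IsSimpleModule (UniversalEnvelopingAlgebra k W) M ∧
    ∀ u : UniversalEnvelopingAlgebra k W, (∀ m : M, u • m = 0) → u = 0 := by
  classical
  obtain ⟨β, hβ⟩ := Pool.Agent.Y351.LQ.t_PBWB k W ℤ e
  have hβ' : ∀ l, β l = PP (EE e) l.1 := hβ
  obtain ⟨J, hJ, hJψ⟩ := exists_ideal e he
  obtain ⟨P, hP, hJP⟩ := Ideal.exists_le_maximal J hJ
  have hE := EE_comm e he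
  let U := UniversalEnvelopingAlgebra k W
  let M : Type := U ⧸ (P : Submodule U U)
  have hsimple : IsSimpleModule U M := isSimpleModule_iff_isCoatom.2 hP.out
  refine ⟨M, inferInstance, inferInstance, hsimple, ?_⟩
  let w : M := Submodule.Quotient.mk 1
  have hw0 : w ≠ 0 := by
    intro h
    have h1 : (1 : U) ∈ P := (Submodule.Quotient.mk_eq_zero P).1 h
    exact hP.ne_top ((Ideal.eq_top_iff_one P).2 h1)
  have hwψ : ∀ j : ℤ, 1 ≤ j → EE e j • w = ps k j • w := by
    intro j hj
    have h1 := hJP (hJψ j hj)
    have h2 : (Submodule.Quotient.mk (EE e j - algebraMap k U (ps k j)) : M) = 0 :=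
      (Submodule.Quotient.mk_eq_zero P).2 h1
    have h3 : (Submodule.Quotient.mk (EE e j - algebraMap k U (ps k j)) : M) =
        (EE e j - algebraMap k U (ps k j)) • w := by
      change _ = Submodule.Quotient.mk ((EE e j - algebraMap k U (ps k j)) • (1 : U))
      rw [smul_eq_mul, mul_one]
    rw [h3, sub_smul, sub_eq_zero, algebraMap_smul] at h2
    exact h2
  -- the coefficients
  let op : ℤ → Module.End k M := ops (k := k) (EE e)
  have hop : ∀ (m n : ℤ) (x : M), op m (op n x) = op n (op m x) +
      ((n : k) - (m : k)) • op (m + n) x := by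
    intro m n x
    change EE e m • (EE e n • x) = EE e n • (EE e m • x) + ((n : k) - (m : k)) • (EE e (m + n) • x)
    rw [← mul_smul, hE, add_smul, mul_smul, smul_assoc]
  have h0 : ∀ j : ℤ, 1 ≤ j → j ≠ 2 → op j w = 0 := by
    intro j hj hj2
    change EE e j • w = 0
    rw [hwψ j hj, ps, if_neg hj2, zero_smul]
  have h2 : op 2 w = w := by
    change EE e 2 • w = w
    rw [hwψ 2 (by norm_num), ps, if_pos rfl, one_smul]
  choose l1 l2 hsplit hneg hs1 hs2 using fun l : SL => split_list l.1 l.2
  let τ : U →ₗ[k] (Multiset ℕ →₀ k) :=
    β.constr k (fun l => Finsupp.single ((ng (l1 l) : List ℕ) : Multiset ℕ)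
      ((l2 l).map (fun j => ps k j.1)).prod)
  have hτ : ∀ l, τ (β l) = Finsupp.single ((ng (l1 l) : List ℕ) : Multiset ℕ)
      ((l2 l).map (fun j => ps k j.1)).prod := fun l => Module.Basis.constr_basis _ _ _ _
  have hact : ∀ u : U, u • w = La op w (τ u) := by
    intro u
    have hu : u ∈ Submodule.span k (Set.range β) := by rw [β.span_eq]; trivial
    induction hu using Submodule.span_induction with
    | mem u hu =>
      obtain ⟨l, rfl⟩ := hu
      rw [hτ, La, Finsupp.linearCombination_single, srt_coe _ (ng_sorted _ (hneg l) (hs1 l)),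
        hβ', hsplit l, PP_append, mul_smul, PP_pos (k := k) (EE e) w hwψ]
      rw [← PP_neg (k := k) (EE e) w (l1 l) (hneg l)]
      rw [smul_comm]
    | zero => rw [zero_smul, map_zero, map_zero]
    | add u v _ _ hu hv => rw [add_smul, hu, hv, map_add, map_add]
    | smul c u _ hu => rw [smul_assoc, hu, map_smul, map_smul]
  -- comparison with the top degree part
  have hcmp : ∀ (D : ℕ) (x : U), x ∈ FU k (EE e) (D + 1) → ∀ t : Multiset ℤ,
      (∀ b ∈ t, b ≤ 0) → sym β D x t ≠ 0 → τ x ≠ 0 := by
    intro D x hx t ht hs
    have hcard : t.card = D := by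
      by_contra hne
      apply hs
      have hx' : x ∈ Submodule.span k (Set.range β) := by rw [β.span_eq]; trivial
      clear hx hs
      induction hx' using Submodule.span_induction with
      | mem u hu =>
        obtain ⟨l, rfl⟩ := hu
        rw [sym_β]
        split_ifs with h
        · rw [Finsupp.single_apply, if_neg]
          intro h3
          apply hne
          rw [← h3, ← h, Multiset.coe_card]
        · rfl
      | zero => simp
      | add u v _ _ hu hv => rw [map_add, Finsupp.add_apply, hu, hv, add_zero]
      | smul c u _ hu => rw [map_smul, Finsupp.smul_apply, hu, smul_zero]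
    have heq : τ x (t.map (fun a => (-a).toNat)) = sym β D x t := by
      have hx' := FU_le (EE e) hE β hβ' (D + 1) hx
      clear hx hs
      induction hx' using Submodule.span_induction with
      | mem u hu =>
        obtain ⟨l, hl, rfl⟩ := hu
        rw [hτ, sym_β, Finsupp.single_apply]
        have hng : ((ng (l1 l) : List ℕ) : Multiset ℕ) =
            ((l1 l : List ℤ) : Multiset ℤ).map (fun a => (-a).toNat) := rfl
        have hlen : l.1.length = (l1 l).length + (l2 l).length := by
          conv_lhs => rw [hsplit l]
          simp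
        by_cases h3 : ((ng (l1 l) : List ℕ) : Multiset ℕ) = t.map (fun a => (-a).toNat)
        · have h4 : ((l1 l : List ℤ) : Multiset ℤ) = t :=
            ng_inj _ _ (fun a ha => hneg l a (by simpa using ha)) ht (by rw [← hng]; exact h3)
          have h5 : (l1 l).length = D := by rw [← hcard, ← h4, Multiset.coe_card]
          have h6 : l2 l = [] := by
            apply List.length_eq_zero_iff.1
            omega
          have h7 : l.1 = l1 l := by
            conv_lhs => rw [hsplit l]
            rw [h6]
            simp
          rw [if_pos h3, if_pos (by rw [h7]; exact h5), h6, Finsupp.single_apply, if_pos (by rw [h7]; exact h4)]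
          simp
        · rw [if_neg h3]
          split_ifs with h4
          · rw [Finsupp.single_apply, if_neg]
            intro h5
            apply h3
            have h6 : l2 l = [] := by
              by_contra h7
              obtain ⟨c, hc⟩ := List.exists_mem_of_ne_nil _ h7
              have h8 : c.1 ∈ l.1 := by
                rw [hsplit l]
                simp only [List.mem_append, List.mem_map]
                exact Or.inr ⟨c, hc, rfl⟩
              have h9 : c.1 ∈ t := by rw [← h5]; simpa using h8
              have h10 := ht _ h9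
              have h11 := c.2
              omega
            have h7 : l.1 = l1 l := by
              conv_lhs => rw [hsplit l]
              rw [h6]
              simp
            rw [hng, ← h7, h5]
          · simp
      | zero => simp
      | add u v _ _ hu hv => rw [map_add, map_add, Finsupp.add_apply, Finsupp.add_apply, hu, hv]
      | smul c u _ hu =>
        rw [map_smul, map_smul, Finsupp.smul_apply, Finsupp.smul_apply, hu]
    intro h3
    rw [h3, Finsupp.zero_apply] at heq
    exact hs heq.symm
  -- the annihilator
  intro u hu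
  by_contra hu0
  let I : Submodule k U :=
    { carrier := {x | ∀ m : M, x • m = 0}
      add_mem' := by
        intro a b ha hb m
        rw [add_smul, ha m, hb m, add_zero]
      zero_mem' := by
        intro m
        rw [zero_smul]
      smul_mem' := by
        intro c a ha m
        rw [smul_assoc, ha m, smul_zero] }
  have hI : ∀ (n : ℤ), ∀ x ∈ I, EE e n * x - x * EE e n ∈ I := by
    intro n x hx m
    rw [sub_smul, mul_smul, mul_smul, hx m, hx (EE e n • m), smul_zero, sub_zero]
  have hrep : β.repr u ≠ 0 := by
    intro h
    apply hu0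
    exact (LinearEquiv.map_eq_zero_iff β.repr).1 h
  obtain ⟨l0, hl0, hmax⟩ := (β.repr u).support.exists_max_image (fun l => l.1.length)
    (Finsupp.support_nonempty_iff.2 hrep)
  have hsum : u = (β.repr u).sum (fun l c => c • β l) := (β.linearCombination_repr u).symm
  have hF : u ∈ FU k (EE e) (l0.1.length + 1) := by
    rw [hsum, Finsupp.sum]
    refine Submodule.sum_mem _ (fun l hl => Submodule.smul_mem _ _ ?_)
    rw [hβ']
    apply mem_FU
    have := hmax l hl
    omega
  have hsym : sym β l0.1.length u (l0.1 : Multiset ℤ) = β.repr u l0 := by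
    conv_lhs => rw [hsum]
    rw [Finsupp.sum, map_sum, Finsupp.finsetSum_apply, Finset.sum_eq_single l0]
    · rw [map_smul, sym_β, if_pos rfl, Finsupp.smul_apply, Finsupp.single_eq_same, smul_eq_mul,
        mul_one]
    · intro l hl hne
      rw [map_smul, sym_β, Finsupp.smul_apply]
      split_ifs with h
      · rw [Finsupp.single_apply, if_neg, smul_zero]
        intro h3
        apply hne
        apply Subtype.ext
        exact List.Perm.eq_of_pairwise (le := (· ≤ ·)) (fun a b _ _ h1 h2 => le_antisymm h1 h2)
          l.2 l0.2 (Multiset.coe_eq_coe.1 h3)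
      · simp
    · intro h
      exact absurd hl0 h
  obtain ⟨t', x', hx'I, hx'F, hx's, hx't⟩ := exists_neg (EE e) hE β hβ' I hI _ _ _ u hu hF
    (by rw [hsym]; exact Finsupp.mem_support_iff.1 hl0) rfl
  have h3 := hcmp _ x' hx'F t' hx't hx's
  apply hw0
  exact indep op hop h0 h2 (τ x') h3 (by rw [← hact]; exact hx'I w)

end

end Pool.Agent.X278.WI
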