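import Mathlib

/-!
# Whittaker vectors of the Witt algebra: linear independence
-/

set_option autoImplicit false
set_option linter.unusedSectionVars false
set_option linter.unusedVariables false

namespace Pool.Agent.X278.WI

variable {k M : Type} [Field k] [CharZero k] [AddCommGroup M] [Module k M]

/-- the monomials applied to the vector -/
def f (e : ℤ → Module.End k M) (w : M) : List ℕ → M
  | [] => w
  | a :: l => e (-(a : ℤ)) (f e w l)

/-- the filtration: weight less than `N`, or weight `N` and length less than `D` -/
def G (e : ℤ → Module.End k M) (w : M) (N D : ℤ) : Submodule k M :=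
  Submodule.span k {x | ∃ l : List ℕ,
    ((l.sum : ℤ) < N ∨ ((l.sum : ℤ) = N ∧ (l.length : ℤ) < D)) ∧ x = f e w l}

/-- the sum over the letters equal to `m` of the monomials with this letter removed -/
def S (e : ℤ → Module.End k M) (w : M) (m : ℕ) : List ℕ → M
  | [] => 0
  | a :: l => (if a = m then f e w l else 0) + e (-(a : ℤ)) (S e w m l)

section

variable (e : ℤ → Module.End k M) (w : M)

lemma mem_G {N D : ℤ} {l : List ℕ}
    (h : (l.sum : ℤ) < N ∨ ((l.sum : ℤ) = N ∧ (l.length : ℤ) < D)) : f e w l ∈ G e w N D :=
  Submodule.subset_span ⟨l, h, rfl⟩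

lemma G_mono {N D N' D' : ℤ} (h : N < N' ∨ (N = N' ∧ D ≤ D')) : G e w N D ≤ G e w N' D' := by
  apply Submodule.span_mono
  rintro x ⟨l, hl, rfl⟩
  refine ⟨l, ?_, rfl⟩
  omega

/-- images of the filtration under a linear map -/
lemma map_G {N D : ℤ} {T : Submodule k M} (g : Module.End k M)
    (h : ∀ l : List ℕ, ((l.sum : ℤ) < N ∨ ((l.sum : ℤ) = N ∧ (l.length : ℤ) < D)) →
      g (f e w l) ∈ T) {x : M} (hx : x ∈ G e w N D) : g x ∈ T := by
  have : G e w N D ≤ T.comap g := by
    unfold G
    rw [Submodule.span_le]
    rintro _ ⟨l, hl, rfl⟩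
    exact h l hl
  exact this hx

lemma neg_G (a : ℕ) {N D : ℤ} {x : M} (hx : x ∈ G e w N D) :
    e (-(a : ℤ)) x ∈ G e w (N + a) (D + 1) := by
  refine map_G e w _ (fun l hl => ?_) hx
  refine mem_G e w (l := a :: l) ?_
  simp only [List.sum_cons, List.length_cons]
  omega

lemma neg_G0 (a : ℕ) {N : ℤ} {x : M} (hx : x ∈ G e w N 0) :
    e (-(a : ℤ)) x ∈ G e w (N + a) 0 := by
  refine map_G e w _ (fun l hl => ?_) hx
  refine mem_G e w (l := a :: l) ?_
  simp only [List.sum_cons, List.length_cons]
  omega

variable (he : ∀ (m n : ℤ) (x : M), e m (e n x) = e n (e m x) + ((n : k) - (m : k)) • e (m + n) x)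

include he in
lemma perm_G {l l' : List ℕ} (h : l.Perm l') :
    f e w l - f e w l' ∈ G e w (l.sum : ℤ) (l.length : ℤ) := by
  induction h with
  | nil => simp
  | cons a h ih =>
    have := neg_G e w a ih
    rw [map_sub] at this
    refine G_mono e w ?_ this
    simp only [List.sum_cons, List.length_cons]
    push_cast
    omega
  | swap a b l =>
    have h1 : f e w (b :: a :: l) - f e w (a :: b :: l) =
        (((-(a : ℤ) : ℤ) : k) - ((-(b : ℤ) : ℤ) : k)) • f e w ((a + b) :: l) := by
      simp only [f]
      rw [he (-(b : ℤ)) (-(a : ℤ))]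
      rw [show (-(b : ℤ)) + (-(a : ℤ)) = -((a + b : ℕ) : ℤ) by push_cast; ring]
      abel
    rw [h1]
    apply Submodule.smul_mem
    apply mem_G
    right
    simp only [List.sum_cons, List.length_cons]
    push_cast
    constructor
    · ring
    · omega
  | trans h1 h2 ih1 ih2 =>
    have e1 := h1.sum_eq
    have e2 := h1.length_eq
    rw [← e1, ← e2] at ih2
    have := Submodule.add_mem _ ih1 ih2
    simpa using this

variable (h0 : ∀ j : ℤ, 1 ≤ j → j ≠ 2 → e j w = 0)

include he h0 in
lemma one_G (l : List ℕ) : e 1 (f e w l) ∈ G e w ((l.sum : ℤ) + 1) 0 := by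
  induction l with
  | nil =>
    rw [f, h0 1 le_rfl (by norm_num)]
    exact Submodule.zero_mem _
  | cons a l ih =>
    rw [f, he]
    apply Submodule.add_mem
    · refine G_mono e w ?_ (neg_G0 e w a ih)
      simp only [List.sum_cons]
      omega
    · apply Submodule.smul_mem
      rcases Nat.eq_zero_or_pos a with rfl | ha
      · refine G_mono e w ?_ (by simpa using ih : _ ∈ G e w ((l.sum : ℤ) + 1) 0)
        simp only [List.sum_cons]
        omega
      · obtain ⟨b, rfl⟩ : ∃ b, a = b + 1 := ⟨a - 1, by omega⟩
        rw [show (1 : ℤ) + -((b + 1 : ℕ) : ℤ) = -(b : ℤ) by push_cast; ring]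
        refine mem_G e w (l := b :: l) ?_
        simp only [List.sum_cons]
        omega

lemma S_G (m : ℕ) (l : List ℕ) : S e w m l ∈ G e w ((l.sum : ℤ) - m) (l.length : ℤ) := by
  induction l with
  | nil => exact Submodule.zero_mem _
  | cons a l ih =>
    rw [S]
    apply Submodule.add_mem
    · split_ifs with h
      · subst h
        apply mem_G
        right
        simp only [List.sum_cons, List.length_cons]
        push_cast
        constructor
        · ring
        · omega
      · exact Submodule.zero_mem _
    · refine G_mono e w ?_ (neg_G e w a ih)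
      simp only [List.sum_cons, List.length_cons]
      push_cast
      omega

variable (h2 : e 2 w = w)

include he h0 h2 in
/-- the main computation -/
lemma key_G (l : List ℕ) : ∀ m : ℕ,
    e ((m : ℤ) + 2) (f e w l) - (if m = 0 then f e w l else 0) + ((2 * (m + 1) : ℕ) : k) • S e w m l
      ∈ G e w ((l.sum : ℤ) - m) ((l.length : ℤ) - 1) := by
  induction l with
  | nil =>
    intro m
    have : e ((m : ℤ) + 2) (f e w []) - (if m = 0 then f e w [] else 0) +
        ((2 * (m + 1) : ℕ) : k) • S e w m [] = 0 := by
      simp only [f, S, smul_zero, add_zero]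
      split_ifs with h
      · subst h
        simp [h2]
      · rw [h0 _ (by omega) (by omega), sub_zero]
    rw [this]
    exact Submodule.zero_mem _
  | cons a l ih =>
    intro m
    have e1 : e ((m : ℤ) + 2) (f e w (a :: l)) - (if m = 0 then f e w (a :: l) else 0) +
        ((2 * (m + 1) : ℕ) : k) • S e w m (a :: l) =
        e (-(a : ℤ)) (e ((m : ℤ) + 2) (f e w l) - (if m = 0 then f e w l else 0) +
          ((2 * (m + 1) : ℕ) : k) • S e w m l) +
        ((((-(a : ℤ) : ℤ) : k) - (((m : ℤ) + 2 : ℤ) : k)) • e ((m : ℤ) + 2 + -(a : ℤ)) (f e w l) +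
          ((2 * (m + 1) : ℕ) : k) • (if a = m then f e w l else 0)) := by
      simp only [f, S]
      rw [he ((m : ℤ) + 2)]
      rw [map_add, map_sub, map_smul, smul_add]
      have : e (-(a : ℤ)) (if m = 0 then f e w l else 0) =
          if m = 0 then e (-(a : ℤ)) (f e w l) else 0 := by
        split_ifs <;> simp
      rw [this]
      abel
    rw [e1]
    have hN : ((List.sum (a :: l) : ℕ) : ℤ) - m = (l.sum : ℤ) + a - m := by
      simp only [List.sum_cons]; push_cast; ring
    have hD : ((List.length (a :: l) : ℕ) : ℤ) - 1 = l.length := by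
      simp only [List.length_cons]; push_cast; ring
    rw [hN, hD]
    apply Submodule.add_mem
    · refine G_mono e w ?_ (neg_G e w a (ih m))
      omega
    · rcases lt_or_ge m a with hma | hma
      · have hne : a ≠ m := by omega
        rw [if_neg hne, smul_zero, add_zero]
        apply Submodule.smul_mem
        rcases Nat.lt_or_ge (m + 1) a with h3 | h3
        · -- the letter stays non-positive
          obtain ⟨b, rfl⟩ : ∃ b, a = b + m + 2 := ⟨a - m - 2, by omega⟩
          rw [show (m : ℤ) + 2 + -((b + m + 2 : ℕ) : ℤ) = -(b : ℤ) by push_cast; ring]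
          refine mem_G e w (l := b :: l) ?_
          simp only [List.sum_cons]
          omega
        · have : a = m + 1 := by omega
          subst this
          rw [show (m : ℤ) + 2 + -((m + 1 : ℕ) : ℤ) = 1 by push_cast; ring]
          refine G_mono e w ?_ (one_G e w he h0 l)
          push_cast
          omega
      · obtain ⟨d, rfl⟩ : ∃ d, m = a + d := ⟨m - a, by omega⟩
        rw [show ((a + d : ℕ) : ℤ) + 2 + -(a : ℤ) = (d : ℤ) + 2 by push_cast; ring]
        have h5 := ih d
        have h6 := S_G e w d l
        have h7 : e ((d : ℤ) + 2) (f e w l) - (if d = 0 then f e w l else 0) ∈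
            G e w ((l.sum : ℤ) - d) (l.length : ℤ) := by
          have h8 := Submodule.sub_mem _ (G_mono e w (by omega) h5 :
            _ ∈ G e w ((l.sum : ℤ) - d) (l.length : ℤ))
            (Submodule.smul_mem _ ((2 * (d + 1) : ℕ) : k) h6)
          simpa using h8
        have h9 : (l.sum : ℤ) + a - ((a + d : ℕ) : ℤ) = (l.sum : ℤ) - d := by push_cast; ring
        rw [h9]
        by_cases hd : d = 0
        · subst hd
          rw [if_pos rfl] at h7
          rw [if_pos (by omega)]
          have h10 : (((-(a : ℤ) : ℤ) : k) - ((((a + 0 : ℕ) : ℤ) + 2 : ℤ) : k)) •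
              e (((0 : ℕ) : ℤ) + 2) (f e w l) + ((2 * (a + 0 + 1) : ℕ) : k) • f e w l =
              (-((2 * (a + 1) : ℕ) : k)) • (e (((0 : ℕ) : ℤ) + 2) (f e w l) - f e w l) := by
            have : (((-(a : ℤ) : ℤ) : k) - ((((a + 0 : ℕ) : ℤ) + 2 : ℤ) : k)) =
              -((2 * (a + 1) : ℕ) : k) := by push_cast; ring
            rw [this, smul_sub]
            simp only [add_zero, neg_smul]
            abel
          rw [h10]
          exact Submodule.smul_mem _ _ h7
        · rw [if_neg hd, sub_zero] at h7
          rw [if_neg (by omega), smul_zero, add_zero]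
          exact Submodule.smul_mem _ _ h7


include he in
lemma S_erase (m : ℕ) (l : List ℕ) :
    S e w m l - (l.count m : k) • f e w (l.erase m) ∈
      G e w ((l.sum : ℤ) - m) ((l.length : ℤ) - 1) := by
  induction l with
  | nil => simp [S]
  | cons a l ih =>
    have hN : ((List.sum (a :: l) : ℕ) : ℤ) - m = (l.sum : ℤ) + a - m := by
      simp only [List.sum_cons]; push_cast; ring
    have hD : ((List.length (a :: l) : ℕ) : ℤ) - 1 = l.length := by
      simp only [List.length_cons]; push_cast; ring
    rw [hN, hD]
    by_cases ham : a = m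
    · subst ham
      have e1 : S e w a (a :: l) - (((a :: l).count a : ℕ) : k) • f e w ((a :: l).erase a) =
          e (-(a : ℤ)) (S e w a l - (l.count a : k) • f e w (l.erase a)) +
            (l.count a : k) • (f e w (a :: l.erase a) - f e w l) := by
        simp only [S, f, if_true, List.count_cons_self, List.erase_cons_head]
        rw [map_sub, map_smul, smul_sub]
        push_cast
        rw [add_smul, one_smul]
        abel
      rw [e1]
      apply Submodule.add_mem
      · refine G_mono e w ?_ (neg_G e w a ih)
        omega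
      · by_cases hal : a ∈ l
        · apply Submodule.smul_mem
          have h1 := perm_G e w he (List.perm_cons_erase hal).symm
          have h2 : (a :: l.erase a).sum = l.sum := (List.perm_cons_erase hal).symm.sum_eq
          have h3 : (a :: l.erase a).length = l.length := (List.perm_cons_erase hal).symm.length_eq
          rw [h2, h3] at h1
          refine G_mono e w ?_ h1
          omega
        · rw [List.count_eq_zero_of_not_mem hal]
          simp
    · have e1 : S e w m (a :: l) - (((a :: l).count m : ℕ) : k) • f e w ((a :: l).erase m) =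
          e (-(a : ℤ)) (S e w m l - (l.count m : k) • f e w (l.erase m)) := by
        rw [List.erase_cons_tail (by simpa using ham), List.count_cons_of_ne ham]
        simp only [S, f]
        rw [if_neg ham, map_sub, map_smul, zero_add]
      rw [e1]
      refine G_mono e w ?_ (neg_G e w a ih)
      omega

/-- the operator which removes the letter `m` -/
def g (e : ℤ → Module.End k M) (m : ℕ) : Module.End k M :=
  e ((m : ℤ) + 2) - (if m = 0 then 1 else 0)

lemma g_apply (m : ℕ) (x : M) : g e m x = e ((m : ℤ) + 2) x - (if m = 0 then x else 0) := by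
  unfold g
  split_ifs <;> simp

variable {w}

include he h0 h2 in
lemma g_f (m : ℕ) (l : List ℕ) :
    g e m (f e w l) + ((2 * (m + 1) * l.count m : ℕ) : k) • f e w (l.erase m) ∈
      G e w ((l.sum : ℤ) - m) ((l.length : ℤ) - 1) := by
  have h1 := key_G e w he h0 h2 l m
  have h3 := Submodule.smul_mem _ ((2 * (m + 1) : ℕ) : k) (S_erase e w he m l)
  have h4 := Submodule.sub_mem _ h1 h3
  convert h4 using 1
  rw [g_apply, smul_sub, smul_smul]
  push_cast
  abel

include he h0 h2 in
lemma g_G (m : ℕ) {N D : ℤ} {x : M} (hx : x ∈ G e w N D) :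
    g e m x ∈ G e w (N - m) (D - 1) := by
  refine map_G e w _ (fun l hl => ?_) hx
  have h1 := g_f e he h0 h2 m l
  have h3 : ((2 * (m + 1) * l.count m : ℕ) : k) • f e w (l.erase m) ∈ G e w (N - m) (D - 1) := by
    by_cases hm : m ∈ l
    · apply Submodule.smul_mem
      apply mem_G
      have h4 := (List.perm_cons_erase hm).sum_eq
      have h5 := (List.perm_cons_erase hm).length_eq
      simp only [List.sum_cons, List.length_cons] at h4 h5
      omega
    · rw [List.count_eq_zero_of_not_mem hm]
      simp
  have h4 := Submodule.sub_mem _ (G_mono e w (by omega) h1 : _ ∈ G e w (N - m) (D - 1)) h3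
  simpa using h4

/-- the decreasing list of a multiset -/
def srt (s : Multiset ℕ) : List ℕ := s.sort (· ≥ ·)

lemma coe_srt (s : Multiset ℕ) : ((srt s : List ℕ) : Multiset ℕ) = s := Multiset.sort_eq _ _

lemma srt_sum (s : Multiset ℕ) : (srt s).sum = s.sum := by
  conv_rhs => rw [← coe_srt s]
  simp

lemma srt_length (s : Multiset ℕ) : (srt s).length = s.card := by
  conv_rhs => rw [← coe_srt s]
  simp

variable (w)

/-- the combination of monomials with given coefficients -/
noncomputable def La : (Multiset ℕ →₀ k) →ₗ[k] M :=
  Finsupp.linearCombination k (fun s => f e w (srt s))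

/-- removal of the letter `m` on the coefficients -/
noncomputable def dm (m : ℕ) : (Multiset ℕ →₀ k) →ₗ[k] (Multiset ℕ →₀ k) :=
  Finsupp.linearCombination k (fun s => Finsupp.single (s.erase m) ((s.count m : ℕ) : k))

variable {w}

include he h0 h2 in
lemma g_srt (m : ℕ) (s : Multiset ℕ) :
    g e m (f e w (srt s)) + ((2 * (m + 1) * s.count m : ℕ) : k) • f e w (srt (s.erase m)) ∈
      G e w ((s.sum : ℤ) - m) ((s.card : ℤ) - 1) := by
  have h1 := g_f e he h0 h2 m (srt s)
  have hc : (srt s).count m = s.count m := by
    conv_rhs => rw [← coe_srt s]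
    simp
  rw [hc, srt_sum, srt_length] at h1
  by_cases hm : m ∈ s
  · have hms : m ∈ srt s := by
      rw [← Multiset.mem_coe, coe_srt]; exact hm
    have hp : ((srt s).erase m).Perm (srt (s.erase m)) := by
      rw [← Multiset.coe_eq_coe, coe_srt, ← Multiset.coe_erase, coe_srt]
    have h3 := perm_G e w he hp
    have h4 := (List.perm_cons_erase hms).sum_eq
    have h5 := (List.perm_cons_erase hms).length_eq
    simp only [List.sum_cons, List.length_cons, srt_sum, srt_length] at h4 h5
    have h6 : f e w ((srt s).erase m) - f e w (srt (s.erase m)) ∈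
        G e w ((s.sum : ℤ) - m) ((s.card : ℤ) - 1) := G_mono e w (by omega) h3
    have h7 := Submodule.sub_mem _ h1
      (Submodule.smul_mem _ ((2 * (m + 1) * s.count m : ℕ) : k) h6)
    convert h7 using 1
    rw [smul_sub]
    abel
  · rw [Multiset.count_eq_zero_of_notMem hm] at h1 ⊢
    simpa using h1

/-- the coefficients supported on multisets with given sum and size -/
noncomputable def Q (k : Type) [Field k] (D : ℕ) (N : ℤ) : Submodule k (Multiset ℕ →₀ k) :=
  Finsupp.supported k k {s : Multiset ℕ | s.card = D ∧ (s.sum : ℤ) = N}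

lemma dm_apply_erase (m : ℕ) (p : Multiset ℕ →₀ k) (s0 : Multiset ℕ) (hm : m ∈ s0) :
    dm (k := k) m p (s0.erase m) = p s0 * (s0.count m : ℕ) := by
  unfold dm
  rw [Finsupp.linearCombination_apply, Finsupp.sum_apply, Finsupp.sum]
  rw [Finset.sum_eq_single s0]
  · simp
  · intro s _ hs
    simp only [Finsupp.smul_single, smul_eq_mul]
    rw [Finsupp.single_apply]
    split_ifs with h
    · by_cases hms : m ∈ s
      · exfalso
        apply hs
        rw [← Multiset.cons_erase hms, ← Multiset.cons_erase hm, h]
      · rw [Multiset.count_eq_zero_of_notMem hms]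
        simp
    · rfl
  · intro h
    rw [Finsupp.notMem_support_iff.1 h]
    simp

include he h0 h2 in
/-- linear independence of the homogeneous part -/
lemma indep_aux (D : ℕ) : ∀ (N : ℤ) (p : Multiset ℕ →₀ k), p ≠ 0 → p ∈ Q k D N →
    La e w p ∈ G e w N D → w = 0 := by
  induction D with
  | zero =>
    intro N p hp hQ hL
    obtain ⟨s0, hs0⟩ := Finsupp.support_nonempty_iff.2 hp
    rw [Q, Finsupp.mem_supported] at hQ
    have hs : ∀ s ∈ p.support, s = 0 := fun s hs => Multiset.card_eq_zero.1 (hQ hs).1
    have hN : N = 0 := by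
      have := (hQ hs0).2
      rw [hs s0 hs0] at this
      simpa using this.symm
    have h1 : p = Finsupp.single 0 (p 0) := by
      ext s
      rw [Finsupp.single_apply]
      split_ifs with h
      · rw [h]
      · by_contra h3
        exact h (hs s (Finsupp.mem_support_iff.2 h3)).symm
    have h3 : p 0 ≠ 0 := by
      rw [hs s0 hs0] at hs0
      exact Finsupp.mem_support_iff.1 hs0
    have h4 : G e w N ((0 : ℕ) : ℤ) = ⊥ := by
      rw [hN, G, Submodule.span_eq_bot]
      rintro _ ⟨l, hl, rfl⟩
      omega
    rw [h4, Submodule.mem_bot, La, h1, Finsupp.linearCombination_single] at hL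
    have h5 : f e w (srt 0) = w := by
      have : srt 0 = [] := by simp [srt]
      rw [this]
      rfl
    rw [h5] at hL
    exact (smul_eq_zero.1 hL).resolve_left h3
  | succ D ih =>
    intro N p hp hQ hL
    obtain ⟨s0, hs0⟩ := Finsupp.support_nonempty_iff.2 hp
    have hQ' := hQ
    rw [Q, Finsupp.mem_supported] at hQ'
    have hs0n : s0 ≠ 0 := by
      intro h
      have := (hQ' hs0).1
      rw [h] at this
      simp at this
    obtain ⟨m, hm⟩ := Multiset.exists_mem_of_ne_zero hs0n
    refine ih (N - m) (dm m p) ?_ ?_ ?_
    · intro h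
      have h1 := dm_apply_erase m p s0 hm
      rw [h, Finsupp.zero_apply] at h1
      rcases mul_eq_zero.1 h1.symm with h3 | h3
      · exact Finsupp.mem_support_iff.1 hs0 h3
      · have : s0.count m ≠ 0 := by
          rw [Multiset.count_ne_zero]; exact hm
        exact this (by exact_mod_cast h3)
    · rw [dm, Finsupp.linearCombination_apply, Finsupp.sum]
      refine Submodule.sum_mem _ (fun s hs => Submodule.smul_mem _ _ ?_)
      by_cases hms : m ∈ s
      · rw [Q, Finsupp.mem_supported]
        refine (Finset.coe_subset.2 Finsupp.support_single_subset).trans ?_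
        rw [Finset.coe_singleton, Set.singleton_subset_iff]
        have h1 := (hQ' hs).1
        have h3 := (hQ' hs).2
        have h4 := congrArg Multiset.card (Multiset.cons_erase hms)
        have h5 := congrArg Multiset.sum (Multiset.cons_erase hms)
        simp only [Multiset.card_cons, Multiset.sum_cons] at h4 h5
        refine ⟨by omega, by omega⟩
      · rw [Multiset.count_eq_zero_of_notMem hms]
        simp
    · have h1 : g e m (La e w p) ∈ G e w (N - m) D := by
        have := g_G e he h0 h2 m hL
        refine G_mono e w ?_ this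
        push_cast
        omega
      have h3 : g e m (La e w p) + ((2 * (m + 1) : ℕ) : k) • La e w (dm m p) ∈
          G e w (N - m) D := by
        have e1 : g e m (La e w p) + ((2 * (m + 1) : ℕ) : k) • La e w (dm m p) =
            p.sum (fun s c => c • (g e m (f e w (srt s)) +
              ((2 * (m + 1) * s.count m : ℕ) : k) • f e w (srt (s.erase m)))) := by
          rw [La, dm, Finsupp.linearCombination_apply (R := k) p]
          rw [Finsupp.linearCombination_apply (R := k) p]
          rw [Finsupp.sum, Finsupp.sum, Finsupp.sum, map_sum, map_sum, Finset.smul_sum,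
            ← Finset.sum_add_distrib]
          refine Finset.sum_congr rfl (fun s _ => ?_)
          rw [map_smul, map_smul, Finsupp.linearCombination_single, smul_add, smul_smul,
            smul_smul, smul_smul]
          congr 2
          push_cast
          ring
        rw [e1, Finsupp.sum]
        refine Submodule.sum_mem _ (fun s hs => Submodule.smul_mem _ _ ?_)
        refine G_mono e w ?_ (g_srt e he h0 h2 m s)
        have h4 := (hQ' hs).1
        have h5 := (hQ' hs).2
        omega
      have h4 := Submodule.sub_mem _ h3 h1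
      rw [add_sub_cancel_left] at h4
      have h5 : ((2 * (m + 1) : ℕ) : k) ≠ 0 := by
        exact_mod_cast (by omega : 2 * (m + 1) ≠ 0)
      exact (Submodule.smul_mem_iff _ h5).1 h4

include he h0 h2 in
/-- the monomials applied to a nonzero Whittaker vector are linearly independent -/
theorem indep (p : Multiset ℕ →₀ k) (hp : p ≠ 0) (hL : La e w p = 0) : w = 0 := by
  classical
  obtain ⟨s1, hs1, hmax1⟩ := p.support.exists_max_image (fun s => s.sum)
    (Finsupp.support_nonempty_iff.2 hp)
  obtain ⟨s2, hs2, hmax2⟩ := (p.support.filter (fun s => s.sum = s1.sum)).exists_max_image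
    (fun s => s.card) ⟨s1, by simp [Finsupp.mem_support_iff.1 hs1]⟩
  rw [Finset.mem_filter] at hs2
  set p1 := p.filter (fun s => s.card = s2.card ∧ s.sum = s2.sum) with hp1
  refine indep_aux e he h0 h2 s2.card (s2.sum : ℤ) p1 ?_ ?_ ?_
  · intro h
    have h1 : p1 s2 = p s2 := by
      rw [hp1, Finsupp.filter_apply_pos _ _ ⟨rfl, rfl⟩]
    rw [h, Finsupp.zero_apply] at h1
    exact Finsupp.mem_support_iff.1 hs2.1 h1.symm
  · rw [Q, Finsupp.mem_supported]
    intro s hs
    rw [hp1, Finset.mem_coe, Finsupp.support_filter, Finset.mem_filter] at hs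
    exact ⟨hs.2.1, by rw [hs.2.2]⟩
  · have h1 : p = p1 + p.filter (fun s => ¬ (s.card = s2.card ∧ s.sum = s2.sum)) := by
      rw [hp1, Finsupp.filter_add_filter_not]
    have h3 : La e w p1 = - La e w (p.filter (fun s => ¬ (s.card = s2.card ∧ s.sum = s2.sum))) := by
      rw [h1, map_add] at hL
      exact eq_neg_of_add_eq_zero_left hL
    rw [h3]
    apply Submodule.neg_mem
    rw [La, Finsupp.linearCombination_apply, Finsupp.sum]
    refine Submodule.sum_mem _ (fun s hs => Submodule.smul_mem _ _ (mem_G e w ?_))
    rw [Finsupp.support_filter, Finset.mem_filter] at hs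
    rw [srt_sum, srt_length]
    have h4 := hmax1 s hs.1
    by_cases h5 : s.sum = s1.sum
    · have h6 := hmax2 s (Finset.mem_filter.2 ⟨hs.1, h5⟩)
      have h7 := hs.2
      right
      have h8 : s.card ≠ s2.card := fun h => h7 ⟨h, by rw [h5, hs2.2]⟩
      constructor
      · rw [h5, hs2.2]
      · omega
    · left
      have := hs2.2
      omega

end

end Pool.Agent.X278.WI
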